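import Mathlib

/-! The maximal number of 0-antipodal vertex pairs of a polytope. -/

set_option autoImplicit false

namespace Pool.Agent.P.MP_61d55c_co

/-- `P` is a `d`-polytope: the convex hull of a finite set, with nonempty interior. -/
def IsPolytope {d : ℕ} (P : Set (EuclideanSpace ℝ (Fin d))) : Prop :=
  (∃ S : Set (EuclideanSpace ℝ (Fin d)), S.Finite ∧ P = convexHull ℝ S) ∧ (interior P).Nonempty

/-- `x, y` form a 0-antipodal pair of `K`: some nonzero linear functional attains its maximum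
over `K` only at `x` and its minimum over `K` only at `y`. -/
def IsAntipodal0 {d : ℕ} (K : Set (EuclideanSpace ℝ (Fin d)))
    (x y : EuclideanSpace ℝ (Fin d)) : Prop :=
  x ∈ K ∧ y ∈ K ∧ ∃ f : EuclideanSpace ℝ (Fin d) →ₗ[ℝ] ℝ, f ≠ 0 ∧
    (∀ z ∈ K, z ≠ x → f z < f x) ∧ ∀ z ∈ K, z ≠ y → f y < f z

/-- the number of unordered pairs of distinct vertices of `P` that are 0-antipodal in `P` -/
noncomputable def pairCount {d : ℕ} (P : Set (EuclideanSpace ℝ (Fin d))) : ℕ :=
  {e : Sym2 (EuclideanSpace ℝ (Fin d)) | ∃ x ∈ P.extremePoints ℝ, ∃ y ∈ P.extremePoints ℝ,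
    x ≠ y ∧ IsAntipodal0 P x y ∧ e = s(x, y)}.ncard

/-- `e0 d n`: the largest `pairCount` of a `d`-polytope with exactly `n` vertices -/
noncomputable def e0 (d n : ℕ) : ℕ :=
  sSup {k : ℕ | ∃ P : Set (EuclideanSpace ℝ (Fin d)), IsPolytope P ∧
    (P.extremePoints ℝ).ncard = n ∧ pairCount P = k}

end Pool.Agent.P.MP_61d55c_co
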