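import Mathlib

/-! Hypergraph Ramsey theorems (infinite, finite, and for order types of injective tuples). -/

set_option autoImplicit false

namespace Pool.Agent.P.MP_61d55c_co

open Set

theorem ramsey_inf {C : Type} [Finite C] (r : ℕ) : ∀ (c : (Fin r → ℕ) → C) (S : Set ℕ),
    S.Infinite → ∃ H ⊆ S, H.Infinite ∧ ∃ col, ∀ t : Fin r → ℕ, StrictMono t →
      (∀ l, t l ∈ H) → c t = col := by
  induction r with
  | zero =>
    intro c S hS
    exact ⟨S, subset_rfl, hS, c Fin.elim0, fun t _ _ => by congr 1; exact Subsingleton.elim _ _⟩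
  | succ r ih =>
    intro c S hS
    have step : ∀ T : {T : Set ℕ // T.Infinite}, ∃ (a : ℕ) (T' : {T : Set ℕ // T.Infinite})
        (col : C), a ∈ T.1 ∧ T'.1 ⊆ T.1 ∧ (∀ x ∈ T'.1, a < x) ∧
        ∀ t : Fin r → ℕ, StrictMono t → (∀ l, t l ∈ T'.1) → c (Fin.cons a t) = col := by
      rintro ⟨T, hT⟩
      obtain ⟨a, ha⟩ := hT.nonempty
      have h1 : (T \ Set.Iic a).Infinite := hT.sdiff (Set.finite_Iic a)
      obtain ⟨H, hH, hHi, col, hcol⟩ := ih (fun t => c (Fin.cons a t)) _ h1
      exact ⟨a, ⟨H, hHi⟩, col, ha, fun x hx => (hH hx).1,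
        fun x hx => lt_of_not_ge (hH hx).2, hcol⟩
    choose a nxt col h1 h2 h3 h4 using step
    let T : ℕ → {T : Set ℕ // T.Infinite} := fun n => nxt^[n] ⟨S, hS⟩
    have hT : ∀ n, T (n + 1) = nxt (T n) := fun n => Function.iterate_succ_apply' _ _ _
    have hanti : ∀ m n, m ≤ n → (T n).1 ⊆ (T m).1 := by
      intro m n hmn
      induction hmn with
      | refl => exact subset_rfl
      | step _ ih => rw [hT]; exact (h2 _).trans ih
    have hmem : ∀ m n, m < n → a (T n) ∈ (nxt (T m)).1 := fun m n hmn => by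
      rw [← hT]; exact hanti _ _ hmn (h1 _)
    have hmono : StrictMono fun n => a (T n) := fun m n hmn => h3 _ _ (hmem m n hmn)
    obtain ⟨col0, hcol0⟩ := Finite.exists_infinite_fiber fun n => col (T n)
    have hinf : {n | col (T n) = col0}.Infinite := Set.infinite_coe_iff.1 hcol0
    refine ⟨(fun n => a (T n)) '' {n | col (T n) = col0}, ?_, hinf.image hmono.injective.injOn,
      col0, fun t ht hH => ?_⟩
    · rintro _ ⟨n, -, rfl⟩
      exact hanti 0 n (Nat.zero_le _) (h1 _)
    · obtain ⟨n, hn, hn'⟩ := hH 0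
      have e : t = Fin.cons (a (T n)) (Fin.tail t) := by
        simp only at hn'
        rw [hn', Fin.cons_self_tail]
      rw [e, ← hn]
      refine h4 _ _ (fun i j hij => ht (Fin.succ_lt_succ_iff.2 hij)) fun l => ?_
      obtain ⟨k, -, hk⟩ := hH l.succ
      have hlt : a (T n) < a (T k) := by
        simp only at hn' hk
        rw [hn', hk]; exact ht (Fin.succ_pos l)
      have := hmem n k (hmono.lt_iff_lt.1 hlt)
      simp only at hk
      rw [hk] at this
      exact this

theorem ramsey_fin {C : Type} [Finite C] (r k : ℕ) : ∃ N : ℕ, ∀ c : (Fin r → ℕ) → C,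
    ∃ h : Fin k → ℕ, StrictMono h ∧ (∀ a, h a < N) ∧ ∀ s t : Fin r → Fin k, StrictMono s →
      StrictMono t → c (h ∘ s) = c (h ∘ t) := by
  by_contra hcon
  push Not at hcon
  choose c hc using hcon
  let U : Ultrafilter ℕ := Filter.hyperfilter ℕ
  have lim : ∀ t : Fin r → ℕ, ∃ col, ∀ᶠ N in (U : Filter ℕ), c N t = col := fun t => by
    obtain ⟨col, hcol⟩ := Ultrafilter.eq_pure_of_finite (U.map fun N => c N t)
    refine ⟨col, ?_⟩
    have : {col} ∈ U.map fun N => c N t := by rw [hcol]; simp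
    exact this
  choose cl hcl using lim
  obtain ⟨H, -, hH, col, hcol⟩ := ramsey_inf r cl univ infinite_univ
  let h : Fin k → ℕ := fun a => Nat.nth (· ∈ H) a
  have hmono : StrictMono h := fun a b hab => Nat.nth_strictMono hH hab
  have hmem : ∀ a, h a ∈ H := fun a => Nat.nth_mem_of_infinite hH a
  have e1 : ∀ᶠ N in (U : Filter ℕ), ∀ s : Fin r → Fin k, c N (h ∘ s) = cl (h ∘ s) :=
    Filter.eventually_all.2 fun s => hcl _
  have e2 : ∀ᶠ N in (U : Filter ℕ), ∀ a, h a < N :=
    Filter.eventually_all.2 fun a => Filter.hyperfilter_le_cofinite (by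
      rw [Nat.cofinite_eq_atTop]; exact Filter.eventually_gt_atTop _)
  obtain ⟨N, hN1, hN2⟩ := (e1.and e2).exists
  obtain ⟨s, t, hs, ht, hne⟩ := hc N h hmono hN2
  apply hne
  rw [hN1, hN1, hcol _ (hmono.comp hs) fun l => hmem _, hcol _ (hmono.comp ht) fun l => hmem _]

/-- Ramsey's theorem for order types of injective tuples -/
theorem ramsey_type {C : Type} [Finite C] (r k : ℕ) : ∃ N : ℕ, ∀ c : (Fin r → ℕ) → C,
    ∃ h : Fin k → ℕ, StrictMono h ∧ (∀ a, h a < N) ∧ ∀ s t : Fin r → Fin k,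
      Function.Injective s → (∀ l l', s l < s l' → t l < t l') → c (h ∘ s) = c (h ∘ t) := by
  obtain ⟨N, hN⟩ := ramsey_fin (C := Equiv.Perm (Fin r) → C) r k
  refine ⟨N, fun c => ?_⟩
  obtain ⟨h, h1, h2, h3⟩ := hN fun t π => c (t ∘ π)
  refine ⟨h, h1, h2, fun s t hs hst => ?_⟩
  have m1 : StrictMono (s ∘ Tuple.sort s) :=
    (Tuple.monotone_sort s).strictMono_of_injective (hs.comp (Tuple.sort s).injective)
  have m2 : StrictMono (t ∘ Tuple.sort s) := fun a b hab => hst _ _ (m1 hab)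
  have := congrFun (h3 _ _ m1 m2) (Tuple.sort s).symm
  simpa [Function.comp_def] using this

end Pool.Agent.P.MP_61d55c_co
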