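import Mathlib
import Pool.Agent.P.MP_61d55c_co.Ramsey

/-! Linear algebra in dimension three: strictly antipodal configurations. -/

set_option autoImplicit false

namespace Pool.Agent.P.MP_61d55c_co

open Matrix

/-- three-space -/
abbrev V := Fin 3 → ℝ

/-- cross product -/
def cr (a b : V) : V :=
  ![a 1 * b 2 - a 2 * b 1, a 2 * b 0 - a 0 * b 2, a 0 * b 1 - a 1 * b 0]

lemma dot3 (a b : V) : a ⬝ᵥ b = a 0 * b 0 + a 1 * b 1 + a 2 * b 2 := by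
  simp [dotProduct, Fin.sum_univ_three]

lemma det_zero {v1 v2 v3 w b1 b2 b3 : V} (hw : w ≠ 0) (h1 : v1 ⬝ᵥ w = 0) (h2 : v2 ⬝ᵥ w = 0)
    (h3 : v3 ⬝ᵥ w = 0) :
    (v1 ⬝ᵥ b1) * ((v2 ⬝ᵥ b2) * (v3 ⬝ᵥ b3) - (v2 ⬝ᵥ b3) * (v3 ⬝ᵥ b2)) -
      (v1 ⬝ᵥ b2) * ((v2 ⬝ᵥ b1) * (v3 ⬝ᵥ b3) - (v2 ⬝ᵥ b3) * (v3 ⬝ᵥ b1)) +
      (v1 ⬝ᵥ b3) * ((v2 ⬝ᵥ b1) * (v3 ⬝ᵥ b2) - (v2 ⬝ᵥ b2) * (v3 ⬝ᵥ b1)) = 0 := by
  have hD : v1 ⬝ᵥ cr v2 v3 = 0 := by
    by_contra hne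
    apply hw
    have key : ∀ y : V, (v1 ⬝ᵥ cr v2 v3) * (w ⬝ᵥ y) = (v1 ⬝ᵥ w) * (cr v2 v3 ⬝ᵥ y) +
        (v2 ⬝ᵥ w) * (cr v3 v1 ⬝ᵥ y) + (v3 ⬝ᵥ w) * (cr v1 v2 ⬝ᵥ y) := fun y => by
      simp only [dot3, cr, cons_val_zero, cons_val_one, cons_val]
      ring
    have := key w
    rw [h1, h2, h3] at this
    have h0 : (v1 ⬝ᵥ cr v2 v3) * (w ⬝ᵥ w) = 0 := by linarith
    exact dotProduct_self_eq_zero.1 ((mul_eq_zero.1 h0).resolve_left hne)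
  have key : (v1 ⬝ᵥ b1) * ((v2 ⬝ᵥ b2) * (v3 ⬝ᵥ b3) - (v2 ⬝ᵥ b3) * (v3 ⬝ᵥ b2)) -
      (v1 ⬝ᵥ b2) * ((v2 ⬝ᵥ b1) * (v3 ⬝ᵥ b3) - (v2 ⬝ᵥ b3) * (v3 ⬝ᵥ b1)) +
      (v1 ⬝ᵥ b3) * ((v2 ⬝ᵥ b1) * (v3 ⬝ᵥ b2) - (v2 ⬝ᵥ b2) * (v3 ⬝ᵥ b1)) =
      (v1 ⬝ᵥ cr v2 v3) * (b1 ⬝ᵥ cr b2 b3) := by
    simp only [dot3, cr, cons_val_zero, cons_val_one, cons_val]
    ring
  rw [key, hD, zero_mul]

/-- there are no four pairwise strictly antipodal segments in three-space -/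
lemma four_segments (a w : Fin 4 → V) (v : Fin 4 → Fin 4 → V) (hw : ∀ i, w i ≠ 0)
    (hv : ∀ i j, i ≠ j → v i j ⬝ᵥ w i = 0)
    (hmax : ∀ i j k, i ≠ j → k ≠ i → v i j ⬝ᵥ a k < v i j ⬝ᵥ a i)
    (hpar : ∀ i j, i ≠ j → ∃ c : ℝ, 0 < c ∧ ∀ z, v j i ⬝ᵥ z = -c * (v i j ⬝ᵥ z)) : False := by
  let x : Fin 4 → Fin 4 → Fin 4 → ℝ := fun i j k =>
    (v i j ⬝ᵥ (a i - a k)) / (v i j ⬝ᵥ (a i - a j))
  have hd : ∀ i j k, i ≠ j → k ≠ i → 0 < v i j ⬝ᵥ (a i - a k) := fun i j k hij hk => by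
    rw [dotProduct_sub]; exact sub_pos.2 (hmax i j k hij hk)
  have xpos : ∀ i j k, i ≠ j → k ≠ i → 0 < x i j k := fun i j k hij hk =>
    div_pos (hd i j k hij hk) (hd i j j hij hij.symm)
  have xsum : ∀ i j k, i ≠ j → x j i k = 1 - x i j k := fun i j k hij => by
    obtain ⟨c, hc, e⟩ := hpar i j hij
    have h0 := (hd i j j hij hij.symm).ne'
    simp only [x]
    rw [e, e]
    simp only [dotProduct_sub] at h0 ⊢
    have h1 : v i j ⬝ᵥ a j - v i j ⬝ᵥ a i ≠ 0 := fun h => h0 (by linarith)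
    field_simp
    ring
  have xdet : ∀ i j k l, i ≠ j → i ≠ k → i ≠ l →
      1 - x i k l * x i l k - x i j k * x i k j - x i j l * x i l j +
        x i j k * x i k l * x i l j + x i j l * x i k j * x i l k = 0 := by
    intro i j k l hj hk hl
    have D := det_zero (b1 := a i - a j) (b2 := a i - a k) (b3 := a i - a l) (hw i)
      (hv i j hj) (hv i k hk) (hv i l hl)
    have n1 := (hd i j j hj hj.symm).ne'
    have n2 := (hd i k k hk hk.symm).ne'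
    have n3 := (hd i l l hl hl.symm).ne'
    simp only [x]
    field_simp
    linear_combination D
  have d0 := xdet 0 1 2 3 (by decide) (by decide) (by decide)
  have d1 := xdet 1 0 2 3 (by decide) (by decide) (by decide)
  have d2 := xdet 2 0 1 3 (by decide) (by decide) (by decide)
  have d3 := xdet 3 0 1 2 (by decide) (by decide) (by decide)
  have P : ∀ i j k l m n p q r : Fin 4, i ≠ j → k ≠ i → l ≠ m → n ≠ l → p ≠ q → r ≠ p →
      0 < x i j k * x l m n * x p q r := fun i j k l m n p q r h1 h2 h3 h4 h5 h6 =>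
    mul_pos (mul_pos (xpos _ _ _ h1 h2) (xpos _ _ _ h3 h4)) (xpos _ _ _ h5 h6)
  have T : ∀ i j k : Fin 4, i ≠ j → j ≠ k → i ≠ k →
      x i j k * x i k j + x j i k * x j k i + x k i j * x k j i < 1 := by
    intro i j k h1 h2 h3
    have p1 := P i j k j k i k i j h1 h3.symm h2 h1 h3.symm h2
    have p2 := P j i k k j i i k j h1.symm h2.symm h2.symm h3 h3 h1.symm
    rw [xsum i j k h1, xsum j k i h2, xsum k i j h3.symm] at *
    nlinarith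
  have t0 := T 0 1 2 (by decide) (by decide) (by decide)
  have t1 := T 0 1 3 (by decide) (by decide) (by decide)
  have t2 := T 0 2 3 (by decide) (by decide) (by decide)
  have t3 := T 1 2 3 (by decide) (by decide) (by decide)
  have c1 := P 0 1 2 0 2 3 0 3 1 (by decide) (by decide) (by decide) (by decide) (by decide) (by decide)
  have c2 := P 0 1 3 0 2 1 0 3 2 (by decide) (by decide) (by decide) (by decide) (by decide) (by decide)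
  have c3 := P 1 0 2 1 2 3 1 3 0 (by decide) (by decide) (by decide) (by decide) (by decide) (by decide)
  have c4 := P 1 0 3 1 2 0 1 3 2 (by decide) (by decide) (by decide) (by decide) (by decide) (by decide)
  have c5 := P 2 0 1 2 1 3 2 3 0 (by decide) (by decide) (by decide) (by decide) (by decide) (by decide)
  have c6 := P 2 0 3 2 1 0 2 3 1 (by decide) (by decide) (by decide) (by decide) (by decide) (by decide)
  have c7 := P 3 0 1 3 1 2 3 2 0 (by decide) (by decide) (by decide) (by decide) (by decide) (by decide)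
  have c8 := P 3 0 2 3 1 0 3 2 1 (by decide) (by decide) (by decide) (by decide) (by decide) (by decide)
  linarith

/-- one linear relation read off at an extreme point -/
lemma radon_step {a b c M U W : ℝ} (hU : 0 < U) (hUM : U < M) (hW : 0 < W) (hWM : W < M)
    (h : a * M + b * U + c * W = 0) :
    (0 < a → a < max (-b) 0 + max (-c) 0) ∧ (a < 0 → -a < max b 0 + max c 0) := by
  have key : ∀ {a b c : ℝ}, a * M + b * U + c * W = 0 → 0 < a → a < max (-b) 0 + max (-c) 0 := by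
    intro a b c h ha
    have p1 := le_max_left (-b) 0
    have p2 := le_max_right (-b) 0
    have p3 := le_max_left (-c) 0
    have p4 := le_max_right (-c) 0
    generalize max (-b) 0 = B at *
    generalize max (-c) 0 = C at *
    by_contra hc
    push Not at hc
    have q1 : -b * U ≤ B * U := mul_le_mul_of_nonneg_right p1 hU.le
    have q2 : -c * W ≤ C * W := mul_le_mul_of_nonneg_right p3 hW.le
    have q3 : (B + C) * M ≤ a * M := mul_le_mul_of_nonneg_right hc (by linarith)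
    have q4 : 0 ≤ B * (M - U) := mul_nonneg p2 (by linarith)
    have q5 : 0 ≤ C * (M - W) := mul_nonneg p4 (by linarith)
    have q6 : B * (M - U) = 0 := by nlinarith
    have q7 : C * (M - W) = 0 := by nlinarith
    have q8 : B = 0 := (mul_eq_zero.1 q6).resolve_right (by linarith)
    have q9 : C = 0 := (mul_eq_zero.1 q7).resolve_right (by linarith)
    rw [q8] at q1; rw [q9] at q2
    nlinarith [mul_pos ha (hU.trans hUM)]
  refine ⟨key h, fun ha => ?_⟩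
  have := key (a := -a) (b := -b) (c := -c) (by linarith) (by linarith)
  simpa using this

/-- `u` is larger at `x` than at `s, t`, and these are larger than at `y` -/
def Sep (u x y s t : V) : Prop :=
  u ⬝ᵥ s < u ⬝ᵥ x ∧ u ⬝ᵥ t < u ⬝ᵥ x ∧ u ⬝ᵥ y < u ⬝ᵥ s ∧ u ⬝ᵥ y < u ⬝ᵥ t

lemma Sep.radon {u x y s t : V} (h : Sep u x y s t) {a b c d : ℝ} (h0 : a + b + c + d = 0)
    (h1 : a * (u ⬝ᵥ x) + b * (u ⬝ᵥ y) + c * (u ⬝ᵥ s) + d * (u ⬝ᵥ t) = 0) :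
    ((0 < a → a < max (-c) 0 + max (-d) 0) ∧ (a < 0 → -a < max c 0 + max d 0)) ∧
    ((0 < b → b < max (-c) 0 + max (-d) 0) ∧ (b < 0 → -b < max c 0 + max d 0)) := by
  obtain ⟨p1, p2, p3, p4⟩ := h
  constructor
  · exact radon_step (M := u ⬝ᵥ x - u ⬝ᵥ y) (U := u ⬝ᵥ s - u ⬝ᵥ y) (W := u ⬝ᵥ t - u ⬝ᵥ y)
      (by linarith) (by linarith) (by linarith) (by linarith)
      (by linear_combination h1 - (u ⬝ᵥ y) * h0)
  · exact radon_step (M := u ⬝ᵥ x - u ⬝ᵥ y) (U := u ⬝ᵥ x - u ⬝ᵥ s) (W := u ⬝ᵥ x - u ⬝ᵥ t)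
      (by linarith) (by linarith) (by linarith) (by linarith)
      (by linear_combination (u ⬝ᵥ x) * h0 - h1)

/-- the volume of the tetrahedron `p p' q q'` -/
def Dt (p p' q q' : V) : ℝ := cr (p - p') (q - q') ⬝ᵥ (p - q)

lemma Dt_ne_zero {p p' q q' u1 u2 u3 u4 : V} (h1 : Sep u1 p q p' q') (h2 : Sep u2 p q' p' q)
    (h3 : Sep u3 p' q p q') (h4 : Sep u4 p' q' p q) : Dt p p' q q' ≠ 0 := by
  intro hD
  have hdet : (Matrix.of ![p - p', q - q', p - q]).det = 0 := by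
    rw [Matrix.det_fin_three, ← hD]
    simp only [Dt, dot3, cr, of_apply, cons_val_zero, cons_val_one, cons_val]
    ring
  obtain ⟨g, hg, e⟩ := Matrix.exists_vecMul_eq_zero_iff.2 hdet
  have e' : ∀ u : V, (g 0 + g 2) * (u ⬝ᵥ p) + (-g 0) * (u ⬝ᵥ p') + (g 1 - g 2) * (u ⬝ᵥ q) +
      (-g 1) * (u ⬝ᵥ q') = 0 := fun u => by
    have a0 := congrFun e 0
    have a1 := congrFun e 1
    have a2 := congrFun e 2
    simp only [vecMul, dot3, of_apply, cons_val_zero, cons_val_one, cons_val, Pi.sub_apply,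
      Pi.zero_apply] at a0 a1 a2
    simp only [dot3]
    linear_combination u 0 * a0 + u 1 * a1 + u 2 * a2
  have hne : ¬ (g 0 + g 2 = 0 ∧ -g 0 = 0 ∧ -g 1 = 0) := by
    rintro ⟨a, b, c⟩
    apply hg
    ext i
    fin_cases i
    · simpa using b
    · simpa using c
    · simp only [Fin.reduceFinMk, Pi.zero_apply]; linarith
  have hs : (g 0 + g 2) + (-g 0) + (g 1 - g 2) + (-g 1) = 0 := by ring
  generalize g 0 + g 2 = A at *
  generalize -g 0 = B at *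
  generalize g 1 - g 2 = C at *
  generalize -g 1 = E at *
  obtain ⟨⟨a1, a2⟩, a3, a4⟩ := h1.radon (a := A) (b := C) (c := B) (d := E) (by linarith)
    (by linarith [e' u1])
  obtain ⟨⟨b1, b2⟩, b3, b4⟩ := h2.radon (a := A) (b := E) (c := B) (d := C) (by linarith)
    (by linarith [e' u2])
  obtain ⟨⟨c1, c2⟩, c3, c4⟩ := h3.radon (a := B) (b := C) (c := A) (d := E) (by linarith)
    (by linarith [e' u3])
  obtain ⟨⟨d1, d2⟩, d3, d4⟩ := h4.radon (a := B) (b := E) (c := A) (d := C) (by linarith)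
    (by linarith [e' u4])
  clear e' h1 h2 h3 h4 hdet e hg hD
  grind

lemma cover {N1 N2 N3 N4 e g u : V} {σ : ℝ} (d1 : 0 < σ * (cr N1 N2 ⬝ᵥ e))
    (d2 : 0 < σ * (cr N2 N3 ⬝ᵥ e)) (d3 : 0 < σ * (cr N3 N4 ⬝ᵥ e)) (d4 : 0 < σ * (cr N4 N1 ⬝ᵥ e))
    (b1 : 0 ≤ σ * (cr N1 N2 ⬝ᵥ g)) (b2 : 0 ≤ σ * (cr N2 N3 ⬝ᵥ g))
    (b3 : 0 ≤ σ * (cr N3 N4 ⬝ᵥ g)) (b4 : 0 ≤ σ * (cr N4 N1 ⬝ᵥ g))
    (ue : 0 < u ⬝ᵥ e) (u1 : 0 < u ⬝ᵥ N1) (u2 : 0 < u ⬝ᵥ N2) (u3 : 0 < u ⬝ᵥ N3)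
    (u4 : 0 < u ⬝ᵥ N4) (ug : u ⬝ᵥ g < 0) : False := by
  have step : ∀ a b : V, 0 < σ * (cr a b ⬝ᵥ e) → 0 ≤ σ * (cr a b ⬝ᵥ g) → 0 < u ⬝ᵥ a →
      0 < u ⬝ᵥ b → 0 ≤ σ * (cr a g ⬝ᵥ e) → 0 < σ * (cr b g ⬝ᵥ e) := by
    intro a b d bd ua ub h
    have key : (σ * (cr a b ⬝ᵥ e)) * (u ⬝ᵥ g) = -(σ * (cr b g ⬝ᵥ e)) * (u ⬝ᵥ a) +
        (σ * (cr a g ⬝ᵥ e)) * (u ⬝ᵥ b) + (σ * (cr a b ⬝ᵥ g)) * (u ⬝ᵥ e) := by
      simp only [dot3, cr, cons_val_zero, cons_val_one, cons_val]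
      ring
    by_contra hc
    push Not at hc
    nlinarith [mul_neg_of_pos_of_neg d ug, mul_nonneg (neg_nonneg.2 hc) ua.le,
      mul_nonneg h ub.le, mul_nonneg bd ue.le]
  have s1 := step _ _ d1 b1 u1 u2
  have s2 := step _ _ d2 b2 u2 u3
  have s3 := step _ _ d3 b3 u3 u4
  have s4 := step _ _ d4 b4 u4 u1
  have pl : (σ * (cr N1 N2 ⬝ᵥ e)) * (σ * (cr N3 g ⬝ᵥ e)) * (σ * (cr N4 g ⬝ᵥ e)) +
      (σ * (cr N2 N3 ⬝ᵥ e)) * (σ * (cr N1 g ⬝ᵥ e)) * (σ * (cr N4 g ⬝ᵥ e)) +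
      (σ * (cr N3 N4 ⬝ᵥ e)) * (σ * (cr N1 g ⬝ᵥ e)) * (σ * (cr N2 g ⬝ᵥ e)) +
      (σ * (cr N4 N1 ⬝ᵥ e)) * (σ * (cr N3 g ⬝ᵥ e)) * (σ * (cr N2 g ⬝ᵥ e)) = 0 := by
    simp only [dot3, cr, cons_val_zero, cons_val_one, cons_val]
    ring
  generalize σ * (cr N1 g ⬝ᵥ e) = t1 at *
  generalize σ * (cr N2 g ⬝ᵥ e) = t2 at *
  generalize σ * (cr N3 g ⬝ᵥ e) = t3 at *
  generalize σ * (cr N4 g ⬝ᵥ e) = t4 at *
  have : (0 < t1 ∧ 0 < t2 ∧ 0 < t3 ∧ 0 < t4) ∨ (t1 < 0 ∧ t2 < 0 ∧ t3 < 0 ∧ t4 < 0) := by grind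
  rcases this with ⟨p1, p2, p3, p4⟩ | ⟨p1, p2, p3, p4⟩
  · nlinarith [mul_pos d1 (mul_pos p3 p4), mul_pos d2 (mul_pos p1 p4), mul_pos d3 (mul_pos p1 p2),
      mul_pos d4 (mul_pos p3 p2)]
  · nlinarith [mul_pos d1 (mul_pos_of_neg_of_neg p3 p4), mul_pos d2 (mul_pos_of_neg_of_neg p1 p4),
      mul_pos d3 (mul_pos_of_neg_of_neg p1 p2), mul_pos d4 (mul_pos_of_neg_of_neg p3 p2)]

/-- the signed height of `r` over the plane through `p` parallel to `p p'` and `q q'` -/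
def Ht (p p' q q' r : V) : ℝ := cr (p - p') (q - q') ⬝ᵥ (r - p)

lemma not_bad {p1 p2 p3 q1 q2 q3 r u : V} {σ : ℝ} (d1 : 0 < σ * Dt p1 p2 q2 q3)
    (d2 : 0 < σ * Dt p2 p3 q2 q3) (d3 : 0 < σ * Dt p2 p3 q1 q2) (d4 : 0 < σ * Dt p1 p2 q1 q2)
    (b1 : 0 ≤ σ * Ht p1 p2 q2 q3 r) (b2 : 0 ≤ σ * Ht p2 p3 q2 q3 r)
    (b3 : 0 ≤ σ * Ht p2 p3 q1 q2 r) (b4 : 0 ≤ σ * Ht p1 p2 q1 q2 r)
    (u1 : u ⬝ᵥ p1 < u ⬝ᵥ p2) (u2 : u ⬝ᵥ p3 < u ⬝ᵥ p2) (u3 : u ⬝ᵥ q2 < u ⬝ᵥ q1)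
    (u4 : u ⬝ᵥ q2 < u ⬝ᵥ q3) (u5 : u ⬝ᵥ q2 < u ⬝ᵥ p2) (u6 : u ⬝ᵥ r < u ⬝ᵥ p2) : False := by
  refine cover (N1 := p2 - p1) (N2 := q3 - q2) (N3 := p2 - p3) (N4 := q1 - q2) (e := p2 - q2)
    (g := r - p2) (u := u) (σ := σ) ?_ ?_ ?_ ?_ ?_ ?_ ?_ ?_ ?_ ?_ ?_ ?_ ?_ ?_
  iterate 8
    simp only [Dt, Ht, dot3, cr, cons_val_zero, cons_val_one, cons_val, Pi.sub_apply] at *
    linarith
  all_goals rw [dotProduct_sub]; linarith

lemma core (Z : Fin 4 × Fin 3 → V)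
    (hu : ∀ x y : Fin 4 × Fin 3, x.1 ≠ y.1 → ∃ u : V, (∀ z, z ≠ x → u ⬝ᵥ Z z < u ⬝ᵥ Z x) ∧
      ∀ z, z ≠ y → u ⬝ᵥ Z y < u ⬝ᵥ Z z)
    (hs : ∀ i j k : Fin 4, i ≠ j → k ≠ i → k ≠ j → ∀ a a' b b' : Fin 3, a < a' → b < b' →
      (0 < Dt (Z (i, a)) (Z (i, a')) (Z (j, b)) (Z (j, b')) ↔
        0 < Dt (Z (i, 0)) (Z (i, 1)) (Z (j, 0)) (Z (j, 1))) ∧
      (0 ≤ Dt (Z (i, a)) (Z (i, a')) (Z (j, b)) (Z (j, b')) *
          Ht (Z (i, a)) (Z (i, a')) (Z (j, b)) (Z (j, b')) (Z (k, 0)) ↔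
        0 ≤ Dt (Z (i, 0)) (Z (i, 1)) (Z (j, 0)) (Z (j, 1)) *
          Ht (Z (i, 0)) (Z (i, 1)) (Z (j, 0)) (Z (j, 1)) (Z (k, 0)))) : False := by
  have sep : ∀ (i j : Fin 4) (a a' b b' : Fin 3), i ≠ j → a ≠ a' → b ≠ b' →
      ∃ u, Sep u (Z (i, a)) (Z (j, b)) (Z (i, a')) (Z (j, b')) := by
    intro i j a a' b b' hij ha hb
    obtain ⟨u, h1, h2⟩ := hu (i, a) (j, b) hij
    exact ⟨u, h1 _ (by simp [ha.symm]), h1 _ (by simp [hij.symm]), h2 _ (by simp [hij]),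
      h2 _ (by simp [hb.symm])⟩
  have hD : ∀ (i j : Fin 4) (a a' b b' : Fin 3), i ≠ j → a ≠ a' → b ≠ b' →
      Dt (Z (i, a)) (Z (i, a')) (Z (j, b)) (Z (j, b')) ≠ 0 := by
    intro i j a a' b b' hij ha hb
    obtain ⟨u1, h1⟩ := sep i j a a' b b' hij ha hb
    obtain ⟨u2, h2⟩ := sep i j a a' b' b hij ha hb.symm
    obtain ⟨u3, h3⟩ := sep i j a' a b b' hij ha.symm hb
    obtain ⟨u4, h4⟩ := sep i j a' a b' b hij ha.symm hb.symm
    obtain ⟨x1, x2, x3, x4⟩ := h2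
    obtain ⟨y1, y2, y3, y4⟩ := h4
    exact Dt_ne_zero h1 ⟨x1, x2, x3, x4⟩ h3 ⟨y1, y2, y3, y4⟩
  have nb : ∀ i j k : Fin 4, i ≠ j → k ≠ i → k ≠ j →
      Dt (Z (i, 0)) (Z (i, 1)) (Z (j, 0)) (Z (j, 1)) *
        Ht (Z (i, 0)) (Z (i, 1)) (Z (j, 0)) (Z (j, 1)) (Z (k, 0)) < 0 := by
    intro i j k hij hki hkj
    by_contra hc
    push Not at hc
    have h0 := hD i j 0 1 0 1 hij (by decide) (by decide)
    have key : ∀ a a' b b' : Fin 3, a < a' → b < b' →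
        0 < Dt (Z (i, 0)) (Z (i, 1)) (Z (j, 0)) (Z (j, 1)) *
          Dt (Z (i, a)) (Z (i, a')) (Z (j, b)) (Z (j, b')) ∧
        0 ≤ Dt (Z (i, 0)) (Z (i, 1)) (Z (j, 0)) (Z (j, 1)) *
          Ht (Z (i, a)) (Z (i, a')) (Z (j, b)) (Z (j, b')) (Z (k, 0)) := by
      intro a a' b b' ha hb
      obtain ⟨e1, e2⟩ := hs i j k hij hki hkj a a' b b' ha hb
      have e3 := e2.2 hc
      have h1 := hD i j a a' b b' hij ha.ne hb.ne
      generalize Dt (Z (i, 0)) (Z (i, 1)) (Z (j, 0)) (Z (j, 1)) = σ at *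
      generalize Dt (Z (i, a)) (Z (i, a')) (Z (j, b)) (Z (j, b')) = D at *
      generalize Ht (Z (i, a)) (Z (i, a')) (Z (j, b)) (Z (j, b')) (Z (k, 0)) = H at *
      rcases lt_or_gt_of_ne h0 with hσ | hσ
      · have hD' : D < 0 := lt_of_le_of_ne (not_lt.1 fun h => by linarith [e1.1 h]) h1
        exact ⟨mul_pos_of_neg_of_neg hσ hD',
          mul_nonneg_of_nonpos_of_nonpos hσ.le (by by_contra h; push Not at h; nlinarith)⟩
      · have hD' : 0 < D := e1.2 hσ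
        exact ⟨mul_pos hσ hD', mul_nonneg hσ.le (by by_contra h; push Not at h; nlinarith)⟩
    obtain ⟨u, h1, h2⟩ := hu (i, 1) (j, 1) hij
    exact not_bad (key 0 1 1 2 (by decide) (by decide)).1 (key 1 2 1 2 (by decide) (by decide)).1
      (key 1 2 0 1 (by decide) (by decide)).1 (key 0 1 0 1 (by decide) (by decide)).1
      (key 0 1 1 2 (by decide) (by decide)).2 (key 1 2 1 2 (by decide) (by decide)).2
      (key 1 2 0 1 (by decide) (by decide)).2 (key 0 1 0 1 (by decide) (by decide)).2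
      (h1 _ (by simp)) (h1 _ (by simp)) (h2 _ (by simp)) (h2 _ (by simp)) (h2 _ (by simp [hij]))
      (h1 _ (by simp [hki]))
  refine four_segments (fun i => Z (i, 0)) (fun i => Z (i, 0) - Z (i, 1))
    (fun i j => Dt (Z (i, 0)) (Z (i, 1)) (Z (j, 0)) (Z (j, 1)) •
      cr (Z (i, 0) - Z (i, 1)) (Z (j, 0) - Z (j, 1))) (fun i h => ?_) (fun i j _ => ?_)
    (fun i j k hij hki => ?_) fun i j hij => ⟨1, one_pos, fun z => ?_⟩
  · obtain ⟨j, hj⟩ := exists_ne i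
    apply hD i j 0 1 0 1 hj.symm (by decide) (by decide)
    rw [Dt, h]
    simp only [cr, dot3, cons_val_zero, cons_val_one, cons_val, Pi.zero_apply]
    ring
  · simp only [smul_dotProduct, smul_eq_mul, dot3, cr, cons_val_zero, cons_val_one, cons_val]
    ring
  · simp only [smul_dotProduct, smul_eq_mul]
    by_cases hkj : k = j
    · have := mul_self_pos.2 (hD i j 0 1 0 1 hij (by decide) (by decide))
      rw [hkj]
      nth_rewrite 2 [Dt] at this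
      rw [dotProduct_sub] at this
      linarith
    · have := nb i j k hij hki hkj
      rw [Ht, dotProduct_sub] at this
      linarith
  · simp only [smul_dotProduct, smul_eq_mul, Dt, dot3, cr, cons_val_zero, cons_val_one, cons_val,
      Pi.sub_apply]
    ring

/-- large complete four-partite graphs are not strictly antipodal in three-space -/
theorem no_K4 : ∃ N : ℕ, ∀ X : Fin 4 × Fin N → V,
    ¬ ∀ x y : Fin 4 × Fin N, x.1 ≠ y.1 → ∃ u : V, (∀ z, z ≠ x → u ⬝ᵥ X z < u ⬝ᵥ X x) ∧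
      ∀ z, z ≠ y → u ⬝ᵥ X y < u ⬝ᵥ X z := by
  classical
  obtain ⟨N, hN⟩ := ramsey_type (C := Fin 4 → Fin 4 → Fin 4 → Prop × Prop) 5 12
  refine ⟨N, fun X hX => ?_⟩
  let Y : Fin 4 → ℕ → V := fun i a => if h : a < N then X (i, ⟨a, h⟩) else 0
  obtain ⟨h, h1, h2, h3⟩ := hN fun t i j k =>
    (0 < Dt (Y i (t 0)) (Y i (t 1)) (Y j (t 2)) (Y j (t 3)),
      0 ≤ Dt (Y i (t 0)) (Y i (t 1)) (Y j (t 2)) (Y j (t 3)) *
        Ht (Y i (t 0)) (Y i (t 1)) (Y j (t 2)) (Y j (t 3)) (Y k (t 4)))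
  let ix : Fin 4 × Fin 3 → Fin 12 := fun x => ⟨3 * x.1 + x.2, by omega⟩
  let P : Fin 4 × Fin 3 → Fin 4 × Fin N := fun x => (x.1, ⟨h (ix x), h2 _⟩)
  have hP : Function.Injective P := by
    rintro ⟨i, a⟩ ⟨j, b⟩ e
    simp only [P, Prod.mk.injEq, Fin.mk.injEq] at e
    have := h1.injective e.2
    simp only [ix, Fin.mk.injEq] at this
    ext <;> simp only <;> omega
  have hY : ∀ i a, Y i (h (ix (i, a))) = X (P (i, a)) := fun i a => by simp [Y, P, h2]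
  refine core (X ∘ P) (fun x y hxy => ?_) fun i j k hij hki hkj a a' b b' ha hb => ?_
  · obtain ⟨u, p, q⟩ := hX (P x) (P y) hxy
    exact ⟨u, fun z hz => p _ (hP.ne hz), fun z hz => q _ (hP.ne hz)⟩
  · have := h3 ![ix (i, a), ix (i, a'), ix (j, b), ix (j, b'), ix (k, 0)]
      ![ix (i, 0), ix (i, 1), ix (j, 0), ix (j, 1), ix (k, 0)] (by
        intro l l'
        have := Fin.lt_def.1 ha
        have := Fin.lt_def.1 hb
        have := Fin.val_ne_of_ne hij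
        have := Fin.val_ne_of_ne hki
        have := Fin.val_ne_of_ne hkj
        fin_cases l <;> fin_cases l' <;> simp [ix] <;> omega) (by
        intro l l'
        have := Fin.lt_def.1 ha
        have := Fin.lt_def.1 hb
        have := Fin.val_ne_of_ne hij
        have := Fin.val_ne_of_ne hki
        have := Fin.val_ne_of_ne hkj
        fin_cases l <;> fin_cases l' <;> simp [ix] <;> omega)
    have := congrFun (congrFun (congrFun this i) j) k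
    simp only [Function.comp, cons_val_zero, cons_val_one, cons_val, hY, Prod.mk.injEq,
      eq_iff_iff] at this
    exact this

end Pool.Agent.P.MP_61d55c_co
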