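import Mathlib

/-! Strictly antipodal clusters on short arcs. -/

set_option autoImplicit false

namespace Pool.Agent.P.MP_61d55c_co

open Matrix Filter Topology

variable {d : ℕ} {ι K : Type}

/-- points on short parabolic arcs -/
def arc (κ : ι → K) (τ : ι → ℝ) (a w c : K → Fin d → ℝ) (ε : ℝ) (x : ι) : Fin d → ℝ :=
  a (κ x) + (ε * τ x) • w (κ x) + (ε * τ x) ^ 2 • c (κ x)

lemma ev_max [Finite ι] {κ : ι → K} {τ : ι → ℝ} (hτ : Function.Injective τ)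
    {a w c : K → Fin d → ℝ} {x : ι} {φ ψ : Fin d → ℝ} (h1 : φ ⬝ᵥ w (κ x) = 0)
    (h2 : φ ⬝ᵥ c (κ x) < 0) (h3 : ∀ k, k ≠ κ x → φ ⬝ᵥ a k < φ ⬝ᵥ a (κ x))
    (h4 : ψ ⬝ᵥ w (κ x) = -2 * τ x * (φ ⬝ᵥ c (κ x))) :
    ∀ᶠ ε in 𝓝[>] (0 : ℝ), ∀ z, z ≠ x →
      (φ + ε • ψ) ⬝ᵥ arc κ τ a w c ε z < (φ + ε • ψ) ⬝ᵥ arc κ τ a w c ε x := by
  refine eventually_all.2 fun z => ?_
  by_cases hz : z = x
  · exact Eventually.of_forall fun _ h => absurd hz h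
  by_cases hk : κ z = κ x
  · have hne : τ x - τ z ≠ 0 := sub_ne_zero.2 (hτ.ne (Ne.symm hz))
    have hc : Continuous fun ε : ℝ => -(φ ⬝ᵥ c (κ x)) * (τ x - τ z) ^ 2 +
        ε * ((τ x ^ 2 - τ z ^ 2) * (ψ ⬝ᵥ c (κ x))) := by fun_prop
    have h0 := (hc.tendsto 0).eventually (lt_mem_nhds (a := 0) (by
      simp only [zero_mul, add_zero]
      exact mul_pos (neg_pos.2 h2) (by positivity)))
    filter_upwards [nhdsWithin_le_nhds h0, self_mem_nhdsWithin] with ε h hε _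
    have hε' : 0 < ε := hε
    have := mul_pos (pow_pos hε' 2) h
    simp only [arc, hk, add_dotProduct, dotProduct_add, smul_dotProduct, dotProduct_smul,
      smul_eq_mul, h1, h4]
    nlinarith
  · have hc : Continuous fun ε : ℝ => (φ + ε • ψ) ⬝ᵥ arc κ τ a w c ε x -
        (φ + ε • ψ) ⬝ᵥ arc κ τ a w c ε z := by
      simp only [arc, add_dotProduct, dotProduct_add, smul_dotProduct, dotProduct_smul,
        smul_eq_mul]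
      fun_prop
    have h0 := (hc.tendsto 0).eventually (lt_mem_nhds (a := 0) (by
      simpa [arc] using h3 _ hk))
    filter_upwards [nhdsWithin_le_nhds h0] with ε h _
    exact sub_pos.1 h

theorem sites [Finite ι] (κ : ι → K) (a w c : K → Fin d → ℝ)
    (H : ∀ i j, i ≠ j → ∃ φ : Fin d → ℝ, φ ⬝ᵥ w i = 0 ∧ φ ⬝ᵥ w j = 0 ∧ φ ⬝ᵥ c i < 0 ∧
      0 < φ ⬝ᵥ c j ∧ (∀ k, k ≠ i → φ ⬝ᵥ a k < φ ⬝ᵥ a i) ∧ (∀ k, k ≠ j → φ ⬝ᵥ a j < φ ⬝ᵥ a k) ∧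
      ∀ α β : ℝ, ∃ ψ : Fin d → ℝ, ψ ⬝ᵥ w i = α ∧ ψ ⬝ᵥ w j = β) :
    ∃ X : ι → Fin d → ℝ, ∀ x y, κ x ≠ κ y → ∃ u : Fin d → ℝ,
      (∀ z, z ≠ x → u ⬝ᵥ X z < u ⬝ᵥ X x) ∧ ∀ z, z ≠ y → u ⬝ᵥ X y < u ⬝ᵥ X z := by
  obtain ⟨g, hg⟩ := exists_injective_nat ι
  have hτ : Function.Injective fun x => (g x : ℝ) := Nat.cast_injective.comp hg
  have : ∀ᶠ ε in 𝓝[>] (0 : ℝ), ∀ x y, κ x ≠ κ y → ∃ u : Fin d → ℝ,
      (∀ z, z ≠ x → u ⬝ᵥ arc κ (fun x => (g x : ℝ)) a w c ε z <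
        u ⬝ᵥ arc κ (fun x => (g x : ℝ)) a w c ε x) ∧
      ∀ z, z ≠ y → u ⬝ᵥ arc κ (fun x => (g x : ℝ)) a w c ε y <
        u ⬝ᵥ arc κ (fun x => (g x : ℝ)) a w c ε z := by
    refine eventually_all.2 fun x => eventually_all.2 fun y => ?_
    by_cases hxy : κ x = κ y
    · exact Eventually.of_forall fun _ h => absurd hxy h
    obtain ⟨φ, h1, h2, h3, h4, h5, h6, h7⟩ := H _ _ hxy
    obtain ⟨ψ, p1, p2⟩ := h7 (-2 * g x * (φ ⬝ᵥ c (κ x))) (-2 * g y * (φ ⬝ᵥ c (κ y)))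
    have e1 := ev_max hτ h1 h3 h5 p1
    have e2 := ev_max (κ := κ) (a := a) (w := w) (c := c) (x := y) (φ := -φ) (ψ := -ψ) hτ
      (by simp [h2]) (by simpa using h4) (fun k hk => by simpa using h6 k hk) (by simp [p2])
    filter_upwards [e1, e2] with ε q1 q2 _
    refine ⟨φ + ε • ψ, q1, fun z hz => ?_⟩
    have := q2 z hz
    rw [smul_neg, ← neg_add, neg_dotProduct, neg_dotProduct] at this
    linarith
  exact ⟨_, this.exists.choose_spec⟩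

theorem three_arcs [Finite ι] (κ : ι → Fin 3) :
    ∃ X : ι → Fin 3 → ℝ, ∀ x y, κ x ≠ κ y → ∃ u : Fin 3 → ℝ,
      (∀ z, z ≠ x → u ⬝ᵥ X z < u ⬝ᵥ X x) ∧ ∀ z, z ≠ y → u ⬝ᵥ X y < u ⬝ᵥ X z := by
  refine sites κ ![![1, 0, 2], ![2, 1, 0], ![0, 2, 1]] ![![1, 0, 0], ![0, 1, 0], ![0, 0, 1]]
    ![![0, 1, -1], ![-1, 0, 1], ![1, -1, 0]] fun i j hij => ?_
  refine ⟨![![0, ![0, 0, 1], ![0, -1, 0]], ![![0, 0, -1], 0, ![1, 0, 0]],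
    ![![0, 1, 0], ![-1, 0, 0], 0]] i j, ?_, ?_, ?_, ?_, fun k hk => ?_, fun k hk => ?_,
    fun α β => ⟨Pi.single i α + Pi.single j β, ?_, ?_⟩⟩
  all_goals try fin_cases k
  all_goals fin_cases i <;> fin_cases j <;> simp_all [dotProduct, Fin.sum_univ_three]

end Pool.Agent.P.MP_61d55c_co
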