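import Mathlib

/-! The edge version of the Erdos-Stone theorem for four parts. -/

set_option autoImplicit false

namespace Pool.Agent.P.MP_61d55c_co

open Filter SimpleGraph Finset

theorem ex_le (t : ℕ) {ε : ℝ} (hε : 0 < ε) : ∀ᶠ n : ℕ in atTop,
    (extremalNumber n (completeEquipartiteGraph 4 t) : ℝ) ≤ (1 / 3 + ε) * n ^ 2 := by
  obtain ⟨N, hN⟩ := eventually_atTop.1
    (eventually_completeEquipartiteGraph_isContained_of_minDegree hε 3 t)
  have step : ∀ n, N ≤ n → (extremalNumber (n + 1) (completeEquipartiteGraph 4 t) : ℝ) ≤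
      extremalNumber n (completeEquipartiteGraph 4 t) + (2 / 3 + ε) * (n + 1) := by
    intro n hn
    conv_lhs => rw [← Fintype.card_fin (n + 1)]
    rw [extremalNumber_le_iff_of_nonneg _ (by positivity)]
    intro G _ hG
    obtain ⟨v, hv⟩ := G.exists_minimal_degree_vertex
    have h1 := card_edgeFinset_deleteIncidenceSet_le_extremalNumber hG v
    rw [card_edgeFinset_deleteIncidenceSet, Fintype.card_fin, Nat.add_sub_cancel] at h1
    have h2 : (G.minDegree : ℝ) < (1 - 1 / (3 : ℕ) + ε) * ((n + 1 : ℕ) : ℝ) := by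
      by_contra hc
      exact hG (hN (n + 1) (by omega) (not_lt.1 hc))
    have h3 : (#G.edgeFinset : ℝ) ≤ extremalNumber n (completeEquipartiteGraph 4 t) +
        G.degree v := by exact_mod_cast (by omega)
    rw [hv] at h2
    push_cast at h2
    linarith
  have bound : ∀ m : ℕ, (extremalNumber (N + m) (completeEquipartiteGraph 4 t) : ℝ) ≤
      extremalNumber N (completeEquipartiteGraph 4 t) +
        (1 / 3 + ε / 2) * ((N + m : ℕ) * ((N + m : ℕ) + 1)) := by
    intro m
    induction m with
    | zero => simp only [add_zero, le_add_iff_nonneg_right]; positivity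
    | succ m ih =>
      have := step (N + m) (by omega)
      rw [← add_assoc]
      push_cast at *
      nlinarith
  have hC : (0 : ℝ) ≤ extremalNumber N (completeEquipartiteGraph 4 t) := Nat.cast_nonneg _
  generalize (extremalNumber N (completeEquipartiteGraph 4 t) : ℝ) = C at bound hC
  filter_upwards [eventually_ge_atTop N, eventually_ge_atTop 1,
    tendsto_natCast_atTop_atTop.eventually_ge_atTop ((C + 1 / 3 + ε / 2) / (ε / 2))]
    with n h1 h2 h3
  obtain ⟨m, rfl⟩ := Nat.exists_eq_add_of_le h1
  have := bound m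
  have h4 : (1 : ℝ) ≤ (N + m : ℕ) := by exact_mod_cast h2
  rw [div_le_iff₀ (by positivity)] at h3
  generalize ((N + m : ℕ) : ℝ) = x at *
  nlinarith [mul_le_mul_of_nonneg_right h3 (by linarith : 0 ≤ x),
    mul_le_mul_of_nonneg_left h4 hC]

end Pool.Agent.P.MP_61d55c_co
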