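import Mathlib
import Pool.Agent.P.MP_61d55c_co.Defs
import Pool.Agent.P.MP_61d55c_co.Geo
import Pool.Agent.P.MP_61d55c_co.Stone
import Pool.Agent.P.MP_61d55c_co.Sites

/-! Upper and lower bounds for `e0`. -/

set_option autoImplicit false

namespace Pool.Agent.P.MP_61d55c_co

open Matrix Filter Topology SimpleGraph Finset

variable {d : ℕ}

/-- the graph of 0-antipodal vertex pairs -/
def apGraph (P : Set (EuclideanSpace ℝ (Fin d))) : SimpleGraph (P.extremePoints ℝ) :=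
  SimpleGraph.fromRel fun x y => IsAntipodal0 P x y

lemma IsAntipodal0.symm {P : Set (EuclideanSpace ℝ (Fin d))} {x y : EuclideanSpace ℝ (Fin d)}
    (h : IsAntipodal0 P x y) : IsAntipodal0 P y x := by
  obtain ⟨hx, hy, f, h0, h1, h2⟩ := h
  exact ⟨hy, hx, -f, neg_ne_zero.2 h0, fun z hz hne => by simpa using h2 z hz hne,
    fun z hz hne => by simpa using h1 z hz hne⟩

lemma pairCount_eq (P : Set (EuclideanSpace ℝ (Fin d))) :
    pairCount P = (apGraph P).edgeSet.ncard := by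
  rw [pairCount, ← Set.ncard_image_of_injective _ (Sym2.map.injective Subtype.val_injective)]
  congr 1
  ext e
  constructor
  · rintro ⟨x, hx, y, hy, hne, h, rfl⟩
    exact ⟨s(⟨x, hx⟩, ⟨y, hy⟩), by simp [apGraph, hne, h], rfl⟩
  · rintro ⟨e, he, rfl⟩
    induction e with
    | h x y =>
      simp only [apGraph, mem_edgeSet, fromRel_adj] at he
      exact ⟨x, x.2, y, y.2, fun h => he.1 (Subtype.ext h), he.2.elim id IsAntipodal0.symm, rfl⟩

lemma IsPolytope.finite {P : Set (EuclideanSpace ℝ (Fin d))} (h : IsPolytope P) :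
    (P.extremePoints ℝ).Finite := by
  obtain ⟨⟨S, hS, rfl⟩, -⟩ := h
  exact hS.subset extremePoints_convexHull_subset

lemma exists_dot (f : EuclideanSpace ℝ (Fin d) →ₗ[ℝ] ℝ) :
    ∃ u : Fin d → ℝ, ∀ x, f x = u ⬝ᵥ x.ofLp := by
  refine ⟨fun i => f (EuclideanSpace.single i 1), fun x => ?_⟩
  conv_lhs => rw [← (EuclideanSpace.basisFun (Fin d) ℝ).sum_repr x]
  simp [dotProduct, mul_comm]

lemma e0_le {n k : ℕ} (h : ∀ P : Set (EuclideanSpace ℝ (Fin d)), IsPolytope P →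
    (P.extremePoints ℝ).ncard = n → pairCount P ≤ k) : e0 d n ≤ k :=
  csSup_le' (by rintro _ ⟨P, h1, h2, rfl⟩; exact h P h1 h2)

lemma le_e0 {n : ℕ} {P : Set (EuclideanSpace ℝ (Fin d))} (h1 : IsPolytope P)
    (h2 : (P.extremePoints ℝ).ncard = n) : pairCount P ≤ e0 d n := by
  refine le_csSup ⟨n.choose 2, ?_⟩ ⟨P, h1, h2, rfl⟩
  rintro _ ⟨Q, q1, q2, rfl⟩
  classical
  have := q1.finite.fintype
  rw [pairCount_eq, ← coe_edgeFinset, Set.ncard_coe_finset, ← q2, ← Nat.card_coe_set_eq,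
    Nat.card_eq_fintype_card]
  exact card_edgeFinset_le_card_choose_two

theorem upper : ∃ N : ℕ, ∀ n, e0 3 n ≤ extremalNumber n (completeEquipartiteGraph 4 N) := by
  obtain ⟨N, hN⟩ := no_K4
  refine ⟨N, fun n => e0_le fun P h1 h2 => ?_⟩
  classical
  have := h1.finite.fintype
  rw [pairCount_eq, ← coe_edgeFinset, Set.ncard_coe_finset, ← h2, ← Nat.card_coe_set_eq,
    Nat.card_eq_fintype_card]
  refine card_edgeFinset_le_extremalNumber ?_
  rintro ⟨c⟩
  refine hN (fun x => (c x).1.ofLp) fun x y hxy => ?_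
  have := c.toHom.map_adj (show (completeEquipartiteGraph 4 N).Adj x y from hxy)
  simp only [apGraph, fromRel_adj] at this
  obtain ⟨-, -, f, -, p, q⟩ := this.2.elim id IsAntipodal0.symm
  obtain ⟨u, hu⟩ := exists_dot f
  simp only [hu] at p q
  exact ⟨u, fun z hz => p _ (extremePoints_subset (c z).2)
      fun h => hz (c.injective (Subtype.ext h)),
    fun z hz => q _ (extremePoints_subset (c z).2) fun h => hz (c.injective (Subtype.ext h))⟩

/-- the functional given by a vector -/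
noncomputable def fn (u : Fin d → ℝ) : EuclideanSpace ℝ (Fin d) →ₗ[ℝ] ℝ where
  toFun x := u ⬝ᵥ x.ofLp
  map_add' x y := by simp
  map_smul' c x := by simp

lemma hull_max {S : Set (EuclideanSpace ℝ (Fin d))} {x : EuclideanSpace ℝ (Fin d)}
    (f : EuclideanSpace ℝ (Fin d) →ₗ[ℝ] ℝ) (h : ∀ z ∈ S, z ≠ x → f z < f x) :
    ∀ z ∈ convexHull ℝ S, z ≠ x → f z < f x := by
  have : convexHull ℝ S ⊆ {z | z ≠ x → f z < f x} := by
    refine convexHull_min h fun a ha b hb s t hs ht hst hne => ?_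
    have ha' : f a ≤ f x := by
      by_cases e : a = x
      · rw [e]
      · exact (ha e).le
    have hb' : f b ≤ f x := by
      by_cases e : b = x
      · rw [e]
      · exact (hb e).le
    simp only [map_add, map_smul, smul_eq_mul]
    by_contra hc
    push Not at hc
    have e0 : s * f x + t * f x = f x := by rw [← add_mul, hst, one_mul]
    have e1 : s * (f x - f a) = 0 := by
      linarith [mul_nonneg hs (sub_nonneg.2 ha'), mul_nonneg ht (sub_nonneg.2 hb')]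
    have e2 : t * (f x - f b) = 0 := by
      linarith [mul_nonneg hs (sub_nonneg.2 ha'), mul_nonneg ht (sub_nonneg.2 hb')]
    have k1 : s • a = s • x := by
      rcases mul_eq_zero.1 e1 with h | h
      · simp [h]
      · by_cases e : a = x
        · rw [e]
        · linarith [ha e]
    have k2 : t • b = t • x := by
      rcases mul_eq_zero.1 e2 with h | h
      · simp [h]
      · by_cases e : b = x
        · rw [e]
        · linarith [hb e]
    apply hne
    rw [k1, k2, ← add_smul, hst, one_smul]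
  exact this

theorem lower {n : ℕ} [NeZero n] (G : SimpleGraph (Fin n)) (X : Fin n → Fin d → ℝ)
    (hG : ∀ x, ∃ y, G.Adj x y)
    (hX : ∀ x y, G.Adj x y → ∃ u : Fin d → ℝ,
      (∀ z, z ≠ x → u ⬝ᵥ X z < u ⬝ᵥ X x) ∧ ∀ z, z ≠ y → u ⬝ᵥ X y < u ⬝ᵥ X z)
    (hspan : ∀ u : Fin d → ℝ, (∀ x y, u ⬝ᵥ X x = u ⬝ᵥ X y) → u = 0) :
    G.edgeSet.ncard ≤ e0 d n := by
  let Y : Fin n → EuclideanSpace ℝ (Fin d) := fun x => WithLp.toLp 2 (X x)
  have hinj : Function.Injective Y := fun x z e => by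
    obtain ⟨y, hy⟩ := hG x
    obtain ⟨u, h1, -⟩ := hX x y hy
    by_contra hne
    have := h1 z (Ne.symm hne)
    rw [show X x = X z from congrArg WithLp.ofLp e] at this
    exact lt_irrefl _ this
  have hA : ∀ x y, G.Adj x y → IsAntipodal0 (convexHull ℝ (Set.range Y)) (Y x) (Y y) := by
    intro x y hxy
    obtain ⟨u, h1, h2⟩ := hX x y hxy
    refine ⟨subset_convexHull _ _ ⟨x, rfl⟩, subset_convexHull _ _ ⟨y, rfl⟩, fn u, fun h => ?_,
      hull_max _ ?_, fun z hz hne => ?_⟩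
    · have := h1 y hxy.ne'
      change fn u (Y y) < fn u (Y x) at this
      simp [h] at this
    · rintro _ ⟨z, rfl⟩ hz
      exact h1 z fun e => hz (by rw [e])
    · have := hull_max (x := Y y) (-fn u) (by
        rintro _ ⟨z, rfl⟩ hz
        exact neg_lt_neg (h2 z fun e => hz (by rw [e]))) z hz hne
      simpa using this
  have hE : (convexHull ℝ (Set.range Y)).extremePoints ℝ = Set.range Y := by
    refine extremePoints_convexHull_subset.antisymm ?_
    rintro _ ⟨x, rfl⟩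
    obtain ⟨y, hy⟩ := hG x
    obtain ⟨hx, -, f, -, h1, -⟩ := hA x y hy
    refine mem_extremePoints_iff_left.2 ⟨hx, fun a ha b hb ⟨s, t, hs, ht, hst, e⟩ => ?_⟩
    by_contra hne
    have p1 := h1 a ha hne
    have p2 : f b ≤ f (Y x) := by
      by_cases e : b = Y x
      · rw [e]
      · exact (h1 b hb e).le
    have p3 := congrArg f e
    simp only [map_add, map_smul, smul_eq_mul] at p3
    have e0 : s * f (Y x) + t * f (Y x) = f (Y x) := by rw [← add_mul, hst, one_mul]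
    linarith [mul_pos hs (sub_pos.2 p1), mul_nonneg ht.le (sub_nonneg.2 p2)]
  have hP : IsPolytope (convexHull ℝ (Set.range Y)) := by
    refine ⟨⟨_, Set.finite_range Y, rfl⟩, ?_⟩
    rw [interior_convexHull_nonempty_iff_affineSpan_eq_top,
      AffineSubspace.affineSpan_eq_top_iff_vectorSpan_eq_top_of_nonempty _ _ _
        (Set.range_nonempty Y)]
    by_contra hc
    obtain ⟨f, hf, hf'⟩ := Submodule.exists_dual_map_eq_bot_of_lt_top (lt_top_iff_ne_top.2 hc)
      inferInstance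
    obtain ⟨u, hu⟩ := exists_dot f
    have := hspan u fun x y => by
      have h : f (Y x - Y y) ∈ (vectorSpan ℝ (Set.range Y)).map f :=
        Submodule.mem_map_of_mem (vsub_mem_vectorSpan ℝ ⟨x, rfl⟩ ⟨y, rfl⟩)
      rw [hf', Submodule.mem_bot, map_sub, hu, hu] at h
      exact sub_eq_zero.1 h
    exact hf (LinearMap.ext fun x => by simp [hu, this])
  refine le_trans ?_ (le_e0 hP (by
    rw [hE, ← Set.image_univ, Set.ncard_image_of_injective _ hinj]; simp))
  rw [pairCount, ← Set.ncard_image_of_injective _ (Sym2.map.injective hinj)]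
  refine Set.ncard_le_ncard ?_ ?_
  · rintro _ ⟨e, he, rfl⟩
    induction e with
    | h x y =>
      exact ⟨Y x, by rw [hE]; exact ⟨x, rfl⟩, Y y, by rw [hE]; exact ⟨y, rfl⟩,
        hinj.ne (G.ne_of_adj he), hA x y he, rfl⟩
  · refine (Set.finite_range fun p : Fin n × Fin n => s(Y p.1, Y p.2)).subset ?_
    rintro _ ⟨x, hx, y, hy, -, -, rfl⟩
    rw [hE] at hx hy
    obtain ⟨x, rfl⟩ := hx
    obtain ⟨y, rfl⟩ := hy
    exact ⟨(x, y), rfl⟩

lemma eq_zero_of_Dt {p p' q q' u : V} (h : Dt p p' q q' ≠ 0) (h1 : u ⬝ᵥ p = u ⬝ᵥ p')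
    (h2 : u ⬝ᵥ q = u ⬝ᵥ q') (h3 : u ⬝ᵥ p = u ⬝ᵥ q) : u = 0 := by
  have key : Dt p p' q q' * (u ⬝ᵥ u) = (u ⬝ᵥ p - u ⬝ᵥ p') * (cr (q - q') (p - q) ⬝ᵥ u) +
      (u ⬝ᵥ q - u ⬝ᵥ q') * (cr (p - q) (p - p') ⬝ᵥ u) +
      (u ⬝ᵥ p - u ⬝ᵥ q) * (cr (p - p') (q - q') ⬝ᵥ u) := by
    simp only [Dt, dot3, cr, cons_val_zero, cons_val_one, Matrix.cons_val, Pi.sub_apply]
    ring
  rw [← h1, ← h2, h3] at key
  simp only [sub_self, zero_mul, add_zero] at key
  exact dotProduct_self_eq_zero.1 ((mul_eq_zero.1 key).resolve_left h)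

theorem lower3 {n : ℕ} (hn : 5 ≤ n) : n ^ 2 ≤ 3 * e0 3 n + 6 := by
  have : NeZero n := ⟨by omega⟩
  obtain ⟨X, hX⟩ := three_arcs fun x : Fin n => (⟨x % 3, by omega⟩ : Fin 3)
  have hX' : ∀ x y : Fin n, (x : ℕ) % 3 ≠ y % 3 → ∃ u : Fin 3 → ℝ,
      (∀ z, z ≠ x → u ⬝ᵥ X z < u ⬝ᵥ X x) ∧ ∀ z, z ≠ y → u ⬝ᵥ X y < u ⬝ᵥ X z :=
    fun x y h => hX x y (by simpa using h)
  have sep : ∀ x y s t : Fin n, (x : ℕ) % 3 ≠ y % 3 → s ≠ x → t ≠ x → s ≠ y → t ≠ y →
      ∃ u, Sep u (X x) (X y) (X s) (X t) := fun x y s t h h1 h2 h3 h4 => by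
    obtain ⟨u, p, q⟩ := hX' x y h
    exact ⟨u, p _ h1, p _ h2, q _ h3, q _ h4⟩
  have := lower (turanGraph n 3) X (fun x => by
    by_cases h : (x : ℕ) % 3 = 0
    · exact ⟨⟨1, by omega⟩, by simp [turanGraph, h]⟩
    · exact ⟨⟨0, by omega⟩, by simpa [turanGraph] using h⟩) hX' fun u hu => by
    obtain ⟨u1, h1⟩ := sep ⟨0, by omega⟩ ⟨1, by omega⟩ ⟨3, by omega⟩ ⟨4, by omega⟩ (by simp)
      (by simp) (by simp) (by simp) (by simp)
    obtain ⟨u2, h2⟩ := sep ⟨0, by omega⟩ ⟨4, by omega⟩ ⟨3, by omega⟩ ⟨1, by omega⟩ (by simp)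
      (by simp) (by simp) (by simp) (by simp)
    obtain ⟨u3, h3⟩ := sep ⟨3, by omega⟩ ⟨1, by omega⟩ ⟨0, by omega⟩ ⟨4, by omega⟩ (by simp)
      (by simp) (by simp) (by simp) (by simp)
    obtain ⟨u4, h4⟩ := sep ⟨3, by omega⟩ ⟨4, by omega⟩ ⟨0, by omega⟩ ⟨1, by omega⟩ (by simp)
      (by simp) (by simp) (by simp) (by simp)
    exact eq_zero_of_Dt (Dt_ne_zero h1 h2 h3 h4) (hu _ _) (hu _ _) (hu _ _)
  rw [← coe_edgeFinset, Set.ncard_coe_finset, card_edgeFinset_turanGraph] at this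
  have h3 : (n % 3) ^ 2 ≤ 4 := by
    exact Nat.pow_le_pow_left (by omega : n % 3 ≤ 2) 2
  omega

theorem tendsto_e0 : Tendsto (fun n : ℕ => (e0 3 n : ℝ) / (n : ℝ) ^ 2) atTop (𝓝 (1 / 3)) := by
  obtain ⟨N, hN⟩ := upper
  refine tendsto_order.2 ⟨fun a ha => ?_, fun a ha => ?_⟩
  · filter_upwards [eventually_ge_atTop 5,
      tendsto_natCast_atTop_atTop.eventually_gt_atTop (2 / (1 / 3 - a))] with n h1 h2
    have h3 : (n : ℝ) ^ 2 ≤ 3 * e0 3 n + 6 := by exact_mod_cast lower3 h1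
    have h4 : (5 : ℝ) ≤ n := by exact_mod_cast h1
    rw [div_lt_iff₀ (by linarith)] at h2
    rw [lt_div_iff₀ (by positivity)]
    nlinarith
  · filter_upwards [eventually_ge_atTop 1, ex_le N (ε := (a - 1 / 3) / 2) (by linarith)]
      with n h1 h2
    have h3 : (e0 3 n : ℝ) ≤ extremalNumber n (completeEquipartiteGraph 4 N) := by
      exact_mod_cast hN n
    have h4 : (1 : ℝ) ≤ n := by exact_mod_cast h1
    rw [div_lt_iff₀ (by positivity)]
    nlinarith [mul_pos (sub_pos.2 ha) (by positivity : (0 : ℝ) < (n : ℝ) ^ 2)]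

end Pool.Agent.P.MP_61d55c_co
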